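import Pool.Agent.Helper69.BQ.Defs

/-!
# Project BQ, piece A1: parity of valuations of rational numbers
-/

namespace Pool.Agent.Helper55.BQ

open Pool.Agent.Helper69.BQ

variable {p : ℕ}

lemma vv_mul (hp : p.Prime) {a b : ℚ} (ha : a ≠ 0) (hb : b ≠ 0) :
    vv p (a * b) = vv p a + vv p b := by
  haveI := Fact.mk hp
  unfold vv
  rw [padicValRat.mul ha hb]
  push_cast
  rfl

lemma zmod2_double (x : ZMod 2) : x + x = 0 := by
  revert x; decide

lemma vv_sq (hp : p.Prime) {a : ℚ} (ha : a ≠ 0) : vv p (a ^ 2) = 0 := by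
  rw [pow_two, vv_mul hp ha ha, zmod2_double]

lemma vv_neg (a : ℚ) : vv p (-a) = vv p a := by
  unfold vv
  rw [padicValRat.neg]

lemma vv_self (hp : p.Prime) : vv p (p : ℚ) = 1 := by
  unfold vv
  rw [padicValRat.self hp.one_lt]
  simp

lemma vv_of_not_dvd (hp : p.Prime) {n : ℤ} (h : ¬ (p : ℤ) ∣ n) : vv p (n : ℚ) = 0 := by
  unfold vv
  rw [padicValRat.of_int, padicValInt.eq_zero_of_not_dvd h]
  simp

lemma vv_of_dvd (hp : p.Prime) {n : ℤ} (h : (p : ℤ) ∣ n) (h2 : ¬ (p : ℤ) ^ 2 ∣ n) :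
    vv p (n : ℚ) = 1 := by
  haveI := Fact.mk hp
  have hn : n ≠ 0 := by
    rintro rfl
    exact h2 (dvd_zero _)
  have h1 : 1 ≤ padicValInt p n := by
    have := (padicValInt_dvd_iff (p := p) 1 n).1 (by simpa using h)
    exact this.resolve_left hn
  have h3 : ¬ 2 ≤ padicValInt p n := fun h3 =>
    h2 ((padicValInt_dvd_iff (p := p) 2 n).2 (Or.inr h3))
  have h4 : padicValInt p n = 1 := by omega
  unfold vv
  rw [padicValRat.of_int, h4]
  simp

/-- Two rational numbers with the same sign and the same parities of all valuations differ by a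
square. -/
lemma eq_mul_sq {a b : ℚ} (ha : a ≠ 0) (hb : b ≠ 0) (hs : a < 0 ↔ b < 0)
    (h : ∀ p : ℕ, p.Prime → vv p a = vv p b) : ∃ q : ℚ, q ≠ 0 ∧ a = b * q ^ 2 := by
  have hab : a * b ≠ 0 := mul_ne_zero ha hb
  have hpos : 0 < a * b := by
    rcases lt_or_gt_of_ne ha with h1 | h1
    · exact mul_pos_of_neg_of_neg h1 (hs.1 h1)
    · have h2 : ¬ b < 0 := fun h2 => absurd (hs.2 h2) (not_lt.2 h1.le)
      exact mul_pos h1 (lt_of_le_of_ne (not_lt.1 h2) (Ne.symm hb))
  have hv : ∀ p : ℕ, p.Prime → vv p (a * b) = 0 := fun p hp => by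
    rw [vv_mul hp ha hb, h p hp, zmod2_double]
  set r : ℚ := a * b with hr
  have hnum : 0 < r.num := Rat.num_pos.2 hpos
  have hden : (r.den : ℚ) ≠ 0 := by exact_mod_cast r.den_nz
  set n : ℕ := r.num.toNat * r.den with hn
  have hnq : (n : ℚ) = r * (r.den : ℚ) ^ 2 := by
    have h1 : ((r.num.toNat : ℕ) : ℚ) = (r.num : ℚ) := by
      have : ((r.num.toNat : ℕ) : ℤ) = r.num := Int.toNat_of_nonneg hnum.le
      exact_mod_cast this
    rw [hn, Nat.cast_mul, h1]
    have h2 : r = (r.num : ℚ) / (r.den : ℚ) := (Rat.num_div_den r).symm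
    have h3 : r * (r.den : ℚ) = (r.num : ℚ) := by
      rw [eq_div_iff hden] at h2
      exact h2
    rw [pow_two, ← mul_assoc, h3]
  have hvn : ∀ p : ℕ, p.Prime → vv p (n : ℚ) = 0 := fun p hp => by
    rw [hnq, vv_mul hp hab (pow_ne_zero 2 hden), hv p hp, vv_sq hp hden, add_zero]
  have hn0 : n ≠ 0 := by
    intro h0
    rw [h0] at hnq
    have := mul_ne_zero hab (pow_ne_zero 2 hden)
    exact this (by rw [← hnq]; simp)
  obtain ⟨c, m, hcm, hc⟩ := Nat.sq_mul_squarefree n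
  have hm0 : m ≠ 0 := by
    rintro rfl
    exact hn0 (by rw [← hcm]; simp)
  have hc0 : c ≠ 0 := by
    rintro rfl
    exact hn0 (by rw [← hcm]; simp)
  have hc1 : c = 1 := by
    by_contra hne
    obtain ⟨p, hp, hpc⟩ := Nat.exists_prime_and_dvd hne
    have h1 : vv p (((c : ℤ)) : ℚ) = 1 := by
      apply vv_of_dvd hp
      · exact_mod_cast hpc
      · intro h2
        have h3 : p ^ 2 ∣ c := by exact_mod_cast h2
        rw [pow_two] at h3
        have := hc p h3
        exact hp.one_lt.ne' (Nat.isUnit_iff.1 this)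
    have h2 := hvn p hp
    rw [← hcm] at h2
    have hmq : (m : ℚ) ≠ 0 := by exact_mod_cast hm0
    have hcq : (c : ℚ) ≠ 0 := by exact_mod_cast hc0
    rw [Nat.cast_mul, Nat.cast_pow, vv_mul hp (pow_ne_zero 2 hmq) hcq, vv_sq hp hmq,
      zero_add] at h2
    rw [Int.cast_natCast] at h1
    rw [h1] at h2
    exact absurd h2 (by decide)
  have hmq : (m : ℚ) ≠ 0 := by exact_mod_cast hm0
  rw [hc1, mul_one] at hcm
  refine ⟨(m : ℚ) / (b * r.den), div_ne_zero hmq (mul_ne_zero hb hden), ?_⟩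
  have h5 : (m : ℚ) ^ 2 = r * (r.den : ℚ) ^ 2 := by
    rw [← hnq, ← hcm]
    push_cast
    rfl
  rw [div_pow, h5, mul_pow]
  rw [hr]
  field_simp

end Pool.Agent.Helper55.BQ
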